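import Mathlib
import Pool.Agent.H13HP.Hur
import Pool.Agent.H13HP.Alg

/-!
# A positive Hurwitz product in polynomial time

Let `A` be an `m`-primitive family of `m` nonnegative `n × n` matrices, `B i` the zero pattern of
`A i` (a `0`-`1` matrix) and `T i = 2 n tr (B i (1 + ∑ j, B j) ^ (2 n - 1))`; this is the number of
occurrences of `i` in all closed lazy walks of length `2 n`.  Then the Hurwitz product of `A` with
the colour vector `D T` is positive for all `D ≥ 2 ^ (32 m ^ 2 n ^ 3)`.

Proof in outline.  As `A` is `m`-primitive, the labelled digraph of `A` is strongly connected, so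
closed lazy walks of length `2 n` can be joined to closed walks with letter counts `t T`, `t ≥ n`,
through all vertices, and if one deletes an edge `p → q` with label `i` from such a walk one gets a
walk from `q` to `p` with letter counts `(n + 1) T - e_i`.  So walks can be reversed modulo multiples
of `T`, and the letter counts `v` such that `v + t T` is realised by a closed walk at `p` for large
`t` form a group.  It is generated by the letter counts of closed walks of length less than `2 n`,
and contains `-s` for the letter counts `s` of a shortest walk from `p` to `q` by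
`m`-primitivity.  By Cramer's rule (`Pool.Agent.H13HP.small_solution`) `-s` is a combination of
the generators with coefficients of size `2 ^ poly(m, n)`; this gives a walk from `p` to `q` with
letter counts `D' T` and a bound for `D'`.
-/

set_option autoImplicit false

namespace Pool.Agent.Results.MP_9c2350_lc.ExplicitColourVector

open Pool.Agent.H13HP

/-- The Hurwitz product `A ^ α`: the sum of the products `A (w 0) * A (w 1) * ⋯` over all words `w`
of length `|α| = ∑ i, α i` in which each letter `i` occurs exactly `α i` times. -/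
noncomputable def hurwitz {m n : ℕ} (A : Fin m → Matrix (Fin n) (Fin n) ℝ) (α : Fin m → ℕ) :
    Matrix (Fin n) (Fin n) ℝ := by
  classical
  exact ∑ w : List.Vector (Fin m) (∑ i, α i) with ∀ i, w.1.count i = α i, (w.1.map A).prod

/-- `α` is a colour vector (of length at least one) with positive Hurwitz product. -/
def PositiveProduct {m n : ℕ} (A : Fin m → Matrix (Fin n) (Fin n) ℝ) (α : Fin m → ℕ) : Prop :=
  1 ≤ ∑ i, α i ∧ ∀ p q, 0 < hurwitz A α p q

/-- The family is `m`-primitive. -/
def MPrimitive {m n : ℕ} (A : Fin m → Matrix (Fin n) (Fin n) ℝ) : Prop :=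
  ∃ α, PositiveProduct A α

/-- The table of the zero patterns of the matrices. -/
noncomputable def pattern {m n : ℕ} (A : Fin m → Matrix (Fin n) (Fin n) ℝ) :
    Fin m → Fin n → Fin n → Bool := by
  classical
  exact fun i p q => decide (0 < A i p q)

/-- The vector `T`; `bm B i` is the `0`-`1` matrix of the pattern `B i`. -/
def T {m n : ℕ} (B : Fin m → Fin n → Fin n → Bool) (i : Fin m) : ℕ :=
  2 * n * Matrix.trace (bm B i * (1 + ∑ j, bm B j) ^ (2 * n - 1))

/-- Let `n ≥ 1`.  For every `m`-primitive family of `m` nonnegative `n × n` matrices and every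
`D ≥ 2 ^ (32 m² n³)` the Hurwitz product with colour vector `D * T` is positive.  For
`D = 2 ^ (32 m² n³)` this vector is computed from the zero patterns by `alg`, and `alg` takes at
most `1000 (m + n) ^ 8` bit operations. -/
theorem result (m n : ℕ) (hn : 1 ≤ n) :
    (∀ A : Fin m → Matrix (Fin n) (Fin n) ℝ, (∀ i p q, 0 ≤ A i p q) → MPrimitive A →
      PositiveProduct A (alg (pattern A)).val ∧
      ∀ D, 2 ^ (32 * m ^ 2 * n ^ 3) ≤ D → PositiveProduct A fun i => D * T (pattern A) i) ∧
    (∀ B : Fin m → Fin n → Fin n → Bool,
      (∀ i, (alg B).val i = T B i * 2 ^ (32 * m ^ 2 * n ^ 3)) ∧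
      (1 ≤ m → (alg B).time ≤ 1000 * (m + n) ^ 8)) := by
  classical
  have hval : ∀ B : Fin m → Fin n → Fin n → Bool,
      ∀ i, (alg B).val i = T B i * 2 ^ (32 * m ^ 2 * n ^ 3) := fun B i => alg_val B i
  have hmain : ∀ A : Fin m → Matrix (Fin n) (Fin n) ℝ, (∀ i p q, 0 ≤ A i p q) → MPrimitive A →
      ∀ D, 2 ^ (32 * m ^ 2 * n ^ 3) ≤ D → PositiveProduct A fun i => D * T (pattern A) i := by
    intro A hA hP D hD
    obtain ⟨α, hα1, hα⟩ := hP
    have hW : ∀ p q, Walk (Ed A) p q α ∅ := fun p q => (hur_pos_iff hA α p q).mp (hα p q)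
    have hm : 1 ≤ m := by
      by_contra h
      have : m = 0 := by omega
      subst this
      simp at hα1
    have hpat : ∀ i, pat (Ed A) i = bm (pattern A) i := by
      intro i
      ext p q
      show (if 0 < A i p q then 1 else 0) = (decide (0 < A i p q)).toNat
      by_cases h : 0 < A i p q <;> simp [h]
    have hKT : ∀ i, KK (Ed A) i = T (pattern A) i := by
      intro i
      rw [KK_eq, hpat, Finset.sum_congr rfl fun j _ => hpat j, Fintype.card_fin]
      rfl
    have hKT' : (fun i => D * T (pattern A) i) = D • KK (Ed A) := by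
      funext i
      rw [← hKT]
      rfl
    have hE : ∀ p q, ∃ v, Walk (Ed A) p q v ∅ := fun p q => ⟨α, hW p q⟩
    refine ⟨?_, fun p q => ?_⟩
    · -- some entry of `T` is positive
      obtain ⟨i, x, y, hixy⟩ : ∃ i x y, Ed A i x y := by
        have h0 := hW ⟨0, hn⟩ ⟨0, hn⟩
        generalize hp : (⟨0, hn⟩ : Fin n) = p at h0
        have : ∀ a b v S, Walk (Ed A) a b v S → 1 ≤ ∑ i, v i → ∃ i x y, Ed A i x y := by
          intro a b v S h
          cases h with
          | nil => intro h; simp at h
          | cons i _ q' _ v S' _ h w h2 => exact fun _ => ⟨i, _, _, h⟩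
        exact this _ _ _ _ h0 hα1
      obtain ⟨u, hu, _⟩ := edge_rev hE hixy
      have h1 : 1 ≤ ((Fintype.card (Fin n) + 1) • KK (Ed A)) i := by
        rw [← hu]; simp
      have h2 : 1 ≤ KK (Ed A) i := by
        by_contra h
        have h3 : KK (Ed A) i = 0 := by omega
        rw [Pi.smul_apply, h3] at h1
        simp at h1
      have hD1 : 1 ≤ D := le_trans Nat.one_le_two_pow hD
      calc 1 ≤ D * T (pattern A) i := Nat.mul_pos hD1 (by rw [← hKT]; exact h2)
        _ ≤ _ := Finset.single_le_sum (f := fun i => D * T (pattern A) i)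
            (fun _ _ => Nat.zero_le _) (Finset.mem_univ i)
    · show 0 < hur A _ p q
      rw [hur_pos_iff hA, hKT']
      refine main_walk α hW ?_ D ?_ p q
      · rwa [Fintype.card_fin]
      · rw [Fintype.card_fin, Fintype.card_fin]
        exact (bnd_le m n hm hn).trans hD
  refine ⟨fun A hA hP => ⟨?_, hmain A hA hP⟩, fun B => ⟨hval B, fun hm => alg_time B hm hn⟩⟩
  have h := hmain A hA hP (2 ^ (32 * m ^ 2 * n ^ 3)) le_rfl
  have e : (alg (pattern A)).val = fun i => 2 ^ (32 * m ^ 2 * n ^ 3) * T (pattern A) i := by
    funext i; rw [hval, mul_comm]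
  rw [e]
  exact h

end Pool.Agent.Results.MP_9c2350_lc.ExplicitColourVector
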